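import Pool.Agent.EWG.StmtsB

/-!
# Row ALS of the table ewg (the additive large sieve by duality)
-/

set_option autoImplicit false

namespace Pool.Agent.EWG.H1

open Finset Pool.Agent.PrimeFourier
open scoped BigOperators ComplexConjugate

theorem als (h1 : DuaStmt) : AlsStmt := by
  intro ι S x a q N hq hsep
  obtain ⟨T, hT⟩ : ∃ T : ι → ℂ, T = fun i => ∑ n ∈ Ioc 0 N, a n * e (x i * n) := ⟨_, rfl⟩
  obtain ⟨Z, hZ⟩ : ∃ Z : ℝ, Z = ∑ i ∈ S, ‖T i‖ ^ 2 := ⟨_, rfl⟩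
  obtain ⟨g, hg⟩ : ∃ g : ℝ, g = 4 * (N : ℝ) + 4 * q * (1 + Real.log q) := ⟨_, rfl⟩
  have hq1 : (1 : ℝ) ≤ q := by exact_mod_cast hq
  have hlog : 0 ≤ Real.log q := Real.log_nonneg hq1
  have hg0 : 0 ≤ g := by
    rw [hg]; positivity
  have hZ0 : 0 ≤ Z := by
    rw [hZ]; positivity
  have hgoal : (∑ i ∈ S, ‖∑ n ∈ Ioc 0 N, a n * e (x i * n)‖ ^ 2) = Z := by
    rw [hZ, hT]
  rw [hgoal, ← hg]
  have hdual := h1 ι S x (fun i => conj (T i)) q N hq hsep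
  have hb : ∑ i ∈ S, ‖conj (T i)‖ ^ 2 = Z := by
    rw [hZ]
    exact Finset.sum_congr rfl fun i _ => by rw [Complex.norm_conj]
  rw [hb, ← hg] at hdual
  -- the identity
  have hid : (Z : ℂ) = ∑ n ∈ Ioc 0 N, a n * ∑ i ∈ S, conj (T i) * e (x i * n) := by
    have e1 : ∀ i, ((‖T i‖ ^ 2 : ℝ) : ℂ) = conj (T i) * ∑ n ∈ Ioc 0 N, a n * e (x i * n) := by
      intro i
      have : T i = ∑ n ∈ Ioc 0 N, a n * e (x i * n) := by rw [hT]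
      rw [← this, ← Complex.normSq_eq_norm_sq, Complex.normSq_eq_conj_mul_self]
    rw [hZ, Complex.ofReal_sum, Finset.sum_congr rfl fun i _ => e1 i]
    simp_rw [Finset.mul_sum]
    rw [Finset.sum_comm]
    refine Finset.sum_congr rfl fun n _ => Finset.sum_congr rfl fun i _ => ?_
    ring
  have hle : Z ≤ ∑ n ∈ Ioc 0 N, ‖a n‖ * ‖∑ i ∈ S, conj (T i) * e (x i * n)‖ := by
    calc Z = ‖(Z : ℂ)‖ := by rw [Complex.norm_real, Real.norm_of_nonneg hZ0]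
      _ ≤ ∑ n ∈ Ioc 0 N, ‖a n * ∑ i ∈ S, conj (T i) * e (x i * n)‖ := by
        rw [hid]; exact norm_sum_le _ _
      _ = _ := Finset.sum_congr rfl fun n _ => norm_mul _ _
  have hcs := Finset.sum_mul_sq_le_sq_mul_sq (Ioc 0 N) (fun n => ‖a n‖)
    (fun n => ‖∑ i ∈ S, conj (T i) * e (x i * n)‖)
  have hA0 : 0 ≤ ∑ n ∈ Ioc 0 N, ‖a n‖ ^ 2 := by positivity
  have h2 : Z ^ 2 ≤ (∑ n ∈ Ioc 0 N, ‖a n‖ ^ 2) * (g * Z) :=
    (pow_le_pow_left₀ hZ0 hle 2).trans (hcs.trans (mul_le_mul_of_nonneg_left hdual hA0))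
  rcases hZ0.eq_or_lt with h | h
  · rw [← h]
    exact mul_nonneg hg0 hA0
  · have h3 : Z * Z ≤ (g * ∑ n ∈ Ioc 0 N, ‖a n‖ ^ 2) * Z := by
      calc Z * Z = Z ^ 2 := by ring
        _ ≤ (∑ n ∈ Ioc 0 N, ‖a n‖ ^ 2) * (g * Z) := h2
        _ = _ := by ring
    exact le_of_mul_le_mul_right h3 h

end Pool.Agent.EWG.H1
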